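import Pool.Agent.H516.PCF.All

/-! PCF OFIB: backward closedness and polynomial identities (helper154, for helper516). -/

set_option autoImplicit false

namespace Pool.Agent.H154.PCF

open Polynomial Pool.Agent.H516.PCF

theorem bwd_aux (hEVAL : S_EVAL) {k : Type} [Field k] {d : ℕ} {P Q : k[X]} (hN : Nrm d P Q)
    {O : Set k} (hO : ∀ t ∈ O, ∀ x, Q.eval x ≠ 0 → P.eval x / Q.eval x = t → x ∈ O) (n : ℕ) (x : k) :
    (qn d P Q n).eval x ≠ 0 → fn d P Q n x ∈ O → x ∈ O := by
  induction n with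
  | zero =>
    intro _ h
    have h0 : fn d P Q 0 x = x := by
      show (pn d P Q 0).eval x / (qn d P Q 0).eval x = x
      have h1 : pn d P Q 0 = X := rfl
      have h2 : qn d P Q 0 = 1 := rfl
      rw [h1, h2, eval_X, eval_one, div_one]
    rwa [h0] at h
  | succ n ih =>
    intro hx h
    obtain ⟨hE1, hE2⟩ := hEVAL k d P Q hN n x
    have hqn : (qn d P Q n).eval x ≠ 0 := fun h => hx (hE2 h).1
    obtain ⟨e1, e2, -⟩ := hE1 hqn
    have hQy : Q.eval (fn d P Q n x) ≠ 0 := by
      intro h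
      apply hx
      rw [e2, h, mul_zero]
    have hf : fn d P Q (n + 1) x = P.eval (fn d P Q n x) / Q.eval (fn d P Q n x) := by
      show (pn d P Q (n + 1)).eval x / (qn d P Q (n + 1)).eval x = _
      rw [e1, e2]
      exact mul_div_mul_left _ _ (pow_ne_zero d hqn)
    exact ih hqn (hO _ h _ hQy hf.symm)

theorem ofib (hEVAL : S_EVAL) (hDEG : S_DEG) (hFIB : S_FIB) (hWDEG : S_WDEG) :
    Pool.Agent.H516.PCF.S_OFIB := by
  intro F _ _ _ p w d P Q A O hL n
  have hN := hL.nrm
  obtain ⟨hD1, -, hD3, hD4, -, hD6, -⟩ := hDEG F d P Q hN n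
  have hd : 0 < d ^ n := pow_pos (by have := hN.two_le; omega) n
  refine ⟨?_, ?_, hD4, ?_, ?_, ?_, ?_, ?_⟩
  · intro γ hγ x hx
    obtain ⟨-, hF, -⟩ := hFIB F d P Q hN n γ
    obtain ⟨h1, h2⟩ := (hF x).1 hx
    exact bwd_aux hEVAL hN hL.bwd n x h1 (by rw [h2]; exact hγ)
  · intro γ h
    have h1 := (hD6 γ).1
    rw [h, natDegree_zero] at h1
    omega
  · exact (hWDEG F (pn d P Q n) (qn d P Q n) hD4 (by rw [hD1]; exact hD3)).1
  · intro γ
    simp only [wr, gp, derivative_sub, derivative_mul, derivative_C]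
    ring
  · intro γ γ'
    simp only [wr, gp, derivative_sub, derivative_mul, derivative_C, C_sub]
    ring
  · intro γ γ'
    simp only [gp, C_sub]
    ring
  · intro γ γ' x
    simp only [gp, C_sub]
    ring

end Pool.Agent.H154.PCF
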