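import Pool.Agent.H516.PCF.All

/-! PCF ORB: forward orbits stay in the postcritical set (helper154, for helper516). -/

set_option autoImplicit false

namespace Pool.Agent.H154.PCF

open Polynomial Pool.Agent.H516.PCF

theorem orb (hEVAL : S_EVAL) : Pool.Agent.H516.PCF.S_ORB := by
  intro k _ d P Q A hN hA n x
  induction n with
  | zero =>
    intro hx
    have h0 : fn d P Q 0 x = x := by
      show (pn d P Q 0).eval x / (qn d P Q 0).eval x = x
      have h1 : pn d P Q 0 = X := rfl
      have h2 : qn d P Q 0 = 1 := rfl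
      rw [h1, h2, eval_X, eval_one, div_one]
    refine ⟨fun h => by rw [h0]; exact h, fun h => ?_, fun i hi => ?_⟩
    · exfalso
      have h1 : wr (pn d P Q 0) (qn d P Q 0) = 1 := by
        have h1 : pn d P Q 0 = X := rfl
        have h2 : qn d P Q 0 = 1 := rfl
        rw [h1, h2]
        unfold wr
        simp
      rw [h1, eval_one] at h
      exact one_ne_zero h
    · obtain rfl : i = 0 := by omega
      exact hx
  | succ n ih =>
    intro hx
    obtain ⟨hE1, hE2⟩ := hEVAL k d P Q hN n x
    have hqn : (qn d P Q n).eval x ≠ 0 := fun h => hx (hE2 h).1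
    obtain ⟨e1, e2, e3⟩ := hE1 hqn
    obtain ⟨i1, i2, i3⟩ := ih hqn
    have hQy : Q.eval (fn d P Q n x) ≠ 0 := by
      intro h
      apply hx
      rw [e2, h, mul_zero]
    have hf : fn d P Q (n + 1) x = P.eval (fn d P Q n x) / Q.eval (fn d P Q n x) := by
      show (pn d P Q (n + 1)).eval x / (qn d P Q (n + 1)).eval x = _
      rw [e1, e2]
      exact mul_div_mul_left _ _ (pow_ne_zero d hqn)
    refine ⟨fun h => ?_, fun h => ?_, fun i hi => ?_⟩
    · rw [hf]
      exact hA.fwd _ (i1 h) hQy
    · rw [hf]
      apply hA.fwd _ _ hQy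
      rw [e3] at h
      rcases mul_eq_zero.1 h with h1 | h1
      · rcases mul_eq_zero.1 h1 with h2 | h2
        · exact absurd h2 (pow_ne_zero _ hqn)
        · exact hA.crit _ h2
      · exact i2 h1
    · rcases Nat.lt_or_ge i (n + 1) with h1 | h1
      · exact i3 i (by omega)
      · obtain rfl : i = n + 1 := by omega
        exact hx

end Pool.Agent.H154.PCF
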